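import Pool.Agent.Helper85.EL.Law
import Pool.Agent.Helper85.AE.Abs
import Pool.Agent.Helper85.AE.Few

set_option autoImplicit false

/-! Correlations with a factor displaced by the values of arithmetic functions. -/

namespace Pool.Agent.Helper85.EL
open Finset
open Pool.Agent.TH935.GF (En)

open Classical in
theorem fam_good {F : ℕ → ℤ} (hF : Pool.Agent.Helper85.AE.Fam F) (C K T U : ℕ) (δ B₁ : ℝ) (hδ : 0 < δ) (ε : ℝ)
    (hε : 0 < ε) : ∃ x₀ : ℕ, ∀ x : ℕ, x₀ ≤ x → ∀ (M : ℕ) (a : Fin M → ℕ) (g : Fin M → ℕ → ℂ),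
      (M : ℝ) ≤ Real.log x ^ T → (∀ l, 1 ≤ a l) → (∀ l n, ‖g l n‖ ≤ Real.log x ^ T) →
      (((Icc 1 x).filter (fun m : ℕ => (m : ℝ) / Real.log x ^ C ≤ |(F m : ℝ)| ∧
        ¬ Small δ B₁ (Real.log x ^ T) (x * Real.log x ^ K) (x / Real.log x ^ U) a g (F m))).card : ℝ) ≤ ε * x := by
  obtain ⟨h, C₁, x₀, hh, hfam⟩ := hF C (ε / 4) (by positivity)
  obtain ⟨D, hD⟩ : ∃ D : ℕ, D = C₁ + K + 1 := ⟨_, rfl⟩
  obtain ⟨N₂, h2⟩ := law δ B₁ hδ h (C₁ + 2 * h + D) T (U + D + 1)
  obtain ⟨n1, hn1⟩ := Pool.Agent.Helper85.AE.ev_log (4 + 4 / ε)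
  refine ⟨x₀ + N₂ + n1 + 3, fun x hx M a g hM ha hg => ?_⟩
  obtain ⟨S, hSx, ⟨E, hE, hSE⟩, hSb, hSen⟩ := hfam x (by omega)
  have hx3 : (3 : ℝ) ≤ x := by exact_mod_cast (by omega : 3 ≤ x)
  have hx0 : (0 : ℝ) < x := by linarith
  obtain ⟨L, hL⟩ : ∃ L, L = Real.log x := ⟨_, rfl⟩
  have hL1 : 4 + 4 / ε ≤ L := by rw [hL]; exact hn1 x (by omega)
  have hε4 : 0 < 4 / ε := by positivity
  have hL4 : 4 ≤ L := by linarith
  have hL0 : 0 < L := by linarith
  have hLε : 4 ≤ ε * L := by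
    have : 4 / ε ≤ L := by linarith
    rwa [div_le_iff₀ hε, mul_comm] at this
  rw [← hL] at hSE hSb hSen hM hg ⊢
  obtain ⟨Bad, hBad⟩ : ∃ Bad : Finset ℕ, Bad = (Icc 1 x).filter (fun m : ℕ => (m : ℝ) / L ^ C ≤ |(F m : ℝ)| ∧
        ¬ Small δ B₁ (L ^ T) (x * L ^ K) (x / L ^ U) a g (F m)) := ⟨_, rfl⟩
  rw [← hBad]
  have hBm : ∀ m ∈ Bad, m ∈ Icc 1 x ∧ (m : ℝ) / L ^ C ≤ |(F m : ℝ)| ∧
        ¬ Small δ B₁ (L ^ T) (x * L ^ K) (x / L ^ U) a g (F m) := by
    intro m hm
    rw [hBad, mem_filter] at hm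
    exact hm
  obtain ⟨R, hR⟩ : ∃ R : Finset {n // n ∈ S}, R = univ.filter (fun n => n.1 ∈ Bad) := ⟨_, rfl⟩
  have hsub : Bad ⊆ E ∪ R.map (Function.Embedding.subtype _) := by
    intro m hm
    obtain ⟨h1, h2, h3⟩ := hBm m hm
    rw [mem_union, Finset.mem_map]
    by_cases hmS : m ∈ S
    · right
      exact ⟨⟨m, hmS⟩, by rw [hR, mem_filter]; exact ⟨mem_univ _, hm⟩, rfl⟩
    · left
      exact hSE m h1 hmS h2
  have hcard : (Bad.card : ℝ) ≤ E.card + R.card := by
    have h1 := (card_le_card hsub).trans (card_union_le _ _)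
    rw [card_map] at h1
    exact_mod_cast h1
  have hfc : Fintype.card {n // n ∈ S} = S.card := Fintype.card_coe _
  have hSc : (S.card : ℝ) ≤ x := by
    have := card_le_card hSx
    rw [Nat.card_Icc, Nat.add_sub_cancel] at this
    exact_mod_cast this
  have hRS : (R.card : ℝ) ≤ S.card := by
    have : R.card ≤ Fintype.card {n // n ∈ S} := card_le_univ _
    rw [hfc] at this
    exact_mod_cast this
  have hRle : (R.card : ℝ) ≤ ε / 4 * x := by
    rcases le_or_gt (S.card : ℝ) (ε / 4 * x) with hsm | hbig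
    · exact hRS.trans hsm
    obtain ⟨Q, hQ⟩ : ∃ Q : ℕ, Q = ⌊(x : ℝ) * L ^ D⌋₊ := ⟨_, rfl⟩
    have hQ1 : (Q : ℝ) ≤ x * L ^ D := by rw [hQ]; exact Nat.floor_le (by positivity)
    have hQ2 : x * L ^ D < Q + 1 := by rw [hQ]; exact Nat.lt_floor_add_one _
    have hD1 : ∀ j : ℕ, j ≤ C₁ + K → x * L ^ j + 1 ≤ x * L ^ D := by
      intro j hj
      have e1 : L ^ j * L ≤ L ^ D := by
        rw [← pow_succ]
        exact pow_le_pow_right₀ (by linarith) (by omega)
      have e2 : 1 ≤ L ^ j := one_le_pow₀ (by linarith)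
      have e3 : x * (L ^ j * L) ≤ x * L ^ D := mul_le_mul_of_nonneg_left e1 hx0.le
      have e4 : (x : ℝ) ≤ x * L ^ j := le_mul_of_one_le_right hx0.le e2
      nlinarith
    have hxQ : x ≤ Q := by
      have h1 := hD1 0 (by omega)
      rw [pow_zero, mul_one] at h1
      have : (x : ℝ) < Q + 1 := by linarith
      have h2 : x < Q + 1 := by exact_mod_cast this
      omega
    have hLQ : L ≤ Real.log Q := by
      rw [hL]
      exact Real.log_le_log hx0 (by exact_mod_cast hxQ)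
    have hTT : L ^ T ≤ Real.log Q ^ T := pow_le_pow_left₀ hL0.le hLQ _
    have key := h2 Q (by omega) M a g (hM.trans hTT) ha (fun l n => (hg l n).trans hTT) {n // n ∈ S}
      (fun n => F n.1) (by
        intro n
        have h1 := hSb n.1 n.2
        have h3 := hD1 C₁ (by omega)
        have h4 : |(F n.1 : ℝ)| ≤ Q := by
          have : |(F n.1 : ℝ)| + 1 < Q + 1 := by linarith
          linarith
        have h5 : ((|F n.1| : ℤ) : ℝ) ≤ Q := by rw [Int.cast_abs]; exact h4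
        exact_mod_cast h5) (by
        rw [hfc]
        have h1 : (En h (fun n : {n // n ∈ S} => F n.1) : ℝ) * Q ≤ L ^ C₁ * (x : ℝ) ^ (2 * h) * L ^ D := by
          calc (En h (fun n : {n // n ∈ S} => F n.1) : ℝ) * Q ≤ (En h (fun n : {n // n ∈ S} => F n.1) : ℝ) * (x * L ^ D) :=
                mul_le_mul_of_nonneg_left hQ1 (Nat.cast_nonneg _)
            _ = (En h (fun n : {n // n ∈ S} => F n.1) : ℝ) * x * L ^ D := by ring
            _ ≤ _ := mul_le_mul_of_nonneg_right hSen (by positivity)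
        refine h1.trans ?_
        have h3 : (x : ℝ) ≤ L * S.card := by
          have h4 : x * 4 ≤ x * (ε * L) := mul_le_mul_of_nonneg_left hLε hx0.le
          have h5 : L * (ε / 4 * x) ≤ L * S.card := mul_le_mul_of_nonneg_left hbig.le (by linarith)
          nlinarith
        calc L ^ C₁ * (x : ℝ) ^ (2 * h) * L ^ D ≤ L ^ C₁ * (L * S.card) ^ (2 * h) * L ^ D := by gcongr
          _ = L ^ (C₁ + 2 * h + D) * (S.card : ℝ) ^ (2 * h) := by
              rw [mul_pow]
              ring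
          _ ≤ _ := by gcongr) R (by
        intro n hn
        rw [hR, mem_filter] at hn
        obtain ⟨a1, a2, a3⟩ := hBm n.1 hn.2
        intro hcon
        apply a3
        refine Small.mono hcon hTT ?_ ?_
        · have := hD1 K (by omega)
          linarith
        · calc (Q : ℝ) / Real.log Q ^ (U + D + 1) ≤ (x * L ^ D) / L ^ (U + D) := by
                apply div_le_div₀ (by positivity) hQ1 (by positivity)
                calc L ^ (U + D) ≤ L ^ (U + D + 1) := pow_le_pow_right₀ (by linarith) (by omega)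
                  _ ≤ _ := pow_le_pow_left₀ hL0.le hLQ _
            _ = x / L ^ U := by
                rw [pow_add L U]
                field_simp)
    rw [hfc] at key
    refine key.trans ?_
    have hlQ0 : 0 < Real.log Q := by linarith
    have hlQ1 : L ≤ Real.log Q ^ (U + D + 1) := by
      calc L ≤ Real.log Q := hLQ
        _ = Real.log Q ^ 1 := (pow_one _).symm
        _ ≤ _ := pow_le_pow_right₀ (by linarith) (by omega)
    rw [div_le_iff₀ (by positivity)]
    calc (S.card : ℝ) ≤ x := hSc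
      _ ≤ ε / 4 * x * L := by
          have h3 : x * 4 ≤ x * (ε * L) := mul_le_mul_of_nonneg_left hLε hx0.le
          linarith
      _ ≤ ε / 4 * x * Real.log Q ^ (U + D + 1) := mul_le_mul_of_nonneg_left hlQ1 (by positivity)
  have h9 : 0 < ε * x := by positivity
  linarith

open Classical in
/-- functions which are large at the integers with a small prime factor are rarely small -/
theorem rarely_small {F : ℕ → ℤ} (hF : ∀ m p z : ℕ, 1 ≤ m → p.Prime → p ∣ m → p ≤ z → (m : ℝ) / z ≤ (F m : ℝ)) (ε : ℝ)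
    (hε : 0 < ε) : ∃ x₀ : ℕ, ∀ x : ℕ, x₀ ≤ x →
      (((Icc 1 x).filter (fun m : ℕ => ¬ (m : ℝ) / Real.log x ^ 1 ≤ |(F m : ℝ)|)).card : ℝ) ≤ ε * x := by
  obtain ⟨z, n0, hz⟩ := Pool.Agent.Helper85.AE.few_rough ε hε
  obtain ⟨n3, hn3⟩ := Pool.Agent.Helper85.AE.ev_log (z + 1)
  refine ⟨n0 + n3 + 1, fun x hx => le_trans (Nat.cast_le.2 (card_le_card ?_)) (hz x (by omega))⟩
  intro m hm
  rw [mem_filter] at hm ⊢
  obtain ⟨hm1, hm2⟩ := hm
  refine ⟨hm1, fun p hp hpz hpm => hm2 ?_⟩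
  have hm3 := mem_Icc.1 hm1
  have hlog := hn3 x (by omega)
  have hz1 : (0 : ℝ) < z := by exact_mod_cast lt_of_lt_of_le hp.pos hpz
  refine le_trans ?_ ((hF m p z hm3.1 hp hpm hpz).trans (le_abs_self _))
  rw [pow_one]
  exact div_le_div_of_nonneg_left (Nat.cast_nonneg _) hz1 (by linarith)

end Pool.Agent.Helper85.EL
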