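import Pool.Agent.R459.Ell
import Pool.Agent.R459.Fam2
import Pool.Agent.Helper85.AE.Fam

set_option autoImplicit false

/-! Correlations with a displaced factor near a twisted Liouville function, for families of small energy. -/

namespace Pool.Agent.Helper85.EL
open Finset
open Pool.Agent.R459 Pool.Agent.R459.Ell
open Pool.Agent.R459.Tw (NearTwist)
open Pool.Agent.H373R2.T7 (exI liR liR_norm sup_liou)
open Pool.Agent.TH935.GF (En)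

/-- For all the functions `f` near a twisted Liouville function, all `l` and all `X` with `a l * X ≤ Q` the sum of
`g l n * f (a l * n + h)` over the `n ≤ X` is at most `Z`. -/
def Small (δ B₁ R Q Z : ℝ) {L : ℕ} (a : Fin L → ℕ) (g : Fin L → ℕ → ℂ) (h : ℤ) : Prop :=
  ∀ f : ℕ → ℂ, NearTwist δ B₁ R f → ∀ l, ∀ X : ℕ, (a l : ℝ) * X ≤ Q →
    ‖∑ n ∈ Icc 1 X, g l n * ext f (a l * n + h)‖ ≤ Z

lemma NearTwist.mono {δ B Q Q' : ℝ} {f : ℕ → ℂ} (hf : NearTwist δ B Q f) (hQ : Q ≤ Q') : NearTwist δ B Q' f := by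
  obtain ⟨h1, h2, q, χ, t, h3, h4, h5, h6⟩ := hf
  exact ⟨h1, h2, q, χ, t, h3, h4.trans hQ, h5.trans hQ, h6⟩

lemma Small.mono {δ B₁ R R' Q Q' Z Z' : ℝ} {L : ℕ} {a : Fin L → ℕ} {g : Fin L → ℕ → ℂ} {h : ℤ}
    (hs : Small δ B₁ R Q Z a g h) (hR : R' ≤ R) (hQ : Q' ≤ Q) (hZ : Z ≤ Z') : Small δ B₁ R' Q' Z' a g h :=
  fun f hf l X hX => (hs f (NearTwist.mono hf hR) l X (hX.trans hQ)).trans hZ

lemma ev_pow_log (E : ℕ) : ∃ N₀ : ℕ, ∀ Q : ℕ, N₀ ≤ Q → (⌈Real.log Q⌉₊) ^ E ≤ Q := by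
  obtain ⟨n1, h1⟩ := Pool.Agent.Helper85.AE.ev_pow 1 one_pos E (2 ^ E)
  obtain ⟨n2, h2⟩ := Pool.Agent.Helper85.AE.ev_log 1
  refine ⟨n1 + n2, fun Q hQ => ?_⟩
  have h3 := h1 Q (by omega)
  have h4 := h2 Q (by omega)
  rw [Real.rpow_one] at h3
  have h5 : ((⌈Real.log Q⌉₊ : ℕ) : ℝ) ≤ 2 * Real.log Q := by
    have := Nat.ceil_lt_add_one (show 0 ≤ Real.log (Q : ℝ) by linarith)
    linarith
  have h6 : ((⌈Real.log Q⌉₊ : ℕ) : ℝ) ^ E ≤ Q := by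
    calc ((⌈Real.log Q⌉₊ : ℕ) : ℝ) ^ E ≤ (2 * Real.log Q) ^ E := pow_le_pow_left₀ (Nat.cast_nonneg _) h5 _
      _ = 2 ^ E * Real.log Q ^ E := mul_pow _ _ _
      _ ≤ Q := h3
  exact_mod_cast h6

theorem law (δ B₁ : ℝ) (hδ : 0 < δ) (h C T U : ℕ) : ∃ N₀ : ℕ, ∀ Q : ℕ, N₀ ≤ Q → ∀ (L : ℕ) (a : Fin L → ℕ)
    (g : Fin L → ℕ → ℂ), (L : ℝ) ≤ Real.log Q ^ T → (∀ l, 1 ≤ a l) → (∀ l n, ‖g l n‖ ≤ Real.log Q ^ T) →
    ∀ (ι : Type) [Fintype ι] (v : ι → ℤ), (∀ i, |v i| ≤ Q) →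
    (En h v : ℝ) * Q ≤ Real.log Q ^ C * (Fintype.card ι : ℝ) ^ (2 * h) →
    ∀ S : Finset ι, (∀ i ∈ S, ¬ Small δ B₁ (Real.log Q ^ T) Q (Q / Real.log Q ^ U) a g (v i)) →
    (S.card : ℝ) ≤ Fintype.card ι / Real.log Q ^ U := by
  classical
  obtain ⟨T', U', E, k₀, hUU, hpass⟩ := pass δ B₁ hδ 1 1 T 0 U le_rfl
  obtain ⟨N1, h1⟩ := fam_near_fin liR liR_norm sup_liou h 1 C (2 * T') 0 (2 * U')
  obtain ⟨n1, hn1⟩ := ev_pow_log E
  obtain ⟨n2, hn2⟩ := Pool.Agent.Helper85.AE.ev_log (k₀ + 2)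
  refine ⟨N1 + n1 + n2, fun Q hQ L a g hL ha hg ι _ v hv hE S hS => ?_⟩
  obtain ⟨k, hk⟩ : ∃ k : ℕ, k = ⌈Real.log Q⌉₊ := ⟨_, rfl⟩
  have hlog := hn2 Q (by omega)
  have hk₀' : (0 : ℝ) ≤ k₀ := Nat.cast_nonneg _
  have hlog0 : 0 < Real.log (Q : ℝ) := by linarith
  have hkl : Real.log Q ≤ k := by rw [hk]; exact Nat.le_ceil _
  have hk0 : k₀ ≤ k := by
    have : (k₀ : ℝ) ≤ k := by linarith
    exact_mod_cast this
  have hk1 : (1 : ℝ) ≤ k := by linarith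
  have hk2 : (k : ℝ) ≤ Real.log Q ^ 2 := by
    rw [hk]
    have := Nat.ceil_lt_add_one hlog0.le
    nlinarith
  have hkE : k ^ E ≤ Q := by rw [hk]; exact hn1 Q (by omega)
  have hpowk : ∀ j : ℕ, (k : ℝ) ^ j ≤ Real.log Q ^ (2 * j) := by
    intro j
    rw [pow_mul]
    exact pow_le_pow_left₀ (Nat.cast_nonneg _) hk2 _
  have hpowl : ∀ j : ℕ, Real.log Q ^ j ≤ (k : ℝ) ^ j := fun j => pow_le_pow_left₀ hlog0.le hkl _
  obtain ⟨L', α', g', hw', hbig⟩ := hpass k hk0 Q hkE (by nlinarith) L a g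
    ⟨hL.trans (hpowl T), ha, fun l n => (hg l n).trans (hpowl T)⟩
  have key := h1 Q (by omega) ι v (by simpa using hv) hE L' (hw'.few.trans (hpowk T')) α' g' hw'.pos
    (fun l hl n hn hn' => (hw'.le l hl n hn hn').trans (hpowk T')) S (fun i hi => by
      obtain ⟨t, ht, l, hl, X, hX, hb⟩ := hbig (v i) (by simpa using hv i) (fun hcon => hS i hi (by
        have h2 := hcon (v i) (by simp)
        refine fun f hf l X hX => (h2 f (NearTwist.mono hf (hpowl T)) l X ?_).trans ?_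
        · rw [one_mul]
          exact_mod_cast hX
        · exact div_le_div_of_nonneg_left (Nat.cast_nonneg _) (by positivity) (hpowl U)))
      refine ⟨t, ?_, l, hl, X, hX, lt_of_le_of_lt ?_ hb⟩
      · have h3 : ((|t| : ℤ) : ℝ) ≤ (((k : ℤ) ^ 0 : ℤ) : ℝ) := Int.cast_le.2 ht
        rw [Int.cast_abs] at h3
        simpa using h3
      · exact div_le_div_of_nonneg_left (Nat.cast_nonneg _) (by positivity) (hpowk U'))
  refine key.trans ?_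
  apply div_le_div_of_nonneg_left (Nat.cast_nonneg _) (by positivity)
  exact pow_le_pow_right₀ (by linarith) (by omega)

end Pool.Agent.Helper85.EL
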